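import Pool.Agent.CF98.SplitA

/-!
Partitions of `E` into three bases (`T3`), ordered.  Used for the slack one reduction (note 2805 of MP_e6151a_ag).

* `T3.swap12`, `T3.swap23`, `T3.swap13`: permutations of the slots.
* `env_of_T3`: a rank function with a partition of `E` into three bases satisfies `Env`.
* `T3.gd`, `gd_T3`: good bases are the blocks of such partitions.
* `Wh r E f`: any two good bases are connected (for any property `Q` constant on the blocks of every partition).
* `wh_of`: the form with `Stp` gives `Wh`.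
* `wh_step`: if a property `c` of partitions (invariant under permutations of the blocks) holds for one partition and fails for
  another one, then there are two partitions with a common block, one with `c` and one without.
-/

set_option autoImplicit false

namespace Pool.Agent.SL65

open Finset Pool.Agent.DT3 Pool.Agent.CF98

variable {α : Type*} [DecidableEq α] {r : Finset α → ℕ} {E A B C A' B' C' : Finset α} {f : ℕ}

/-- A partition of `E` into three bases. -/
structure T3 (r : Finset α → ℕ) (E : Finset α) (f : ℕ) (A B C : Finset α) : Prop where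
  a : Bs r f A
  b : Bs r f B
  c : Bs r f C
  ab : Disjoint A B
  ac : Disjoint A C
  bc : Disjoint B C
  un : A ∪ B ∪ C = E

theorem T3.swap12 (h : T3 r E f A B C) : T3 r E f B A C :=
  ⟨h.b, h.a, h.c, h.ab.symm, h.bc, h.ac, by rw [union_comm B A]; exact h.un⟩

theorem T3.swap23 (h : T3 r E f A B C) : T3 r E f A C B :=
  ⟨h.a, h.c, h.b, h.ac, h.ab, h.bc.symm, by rw [union_assoc, union_comm C B, ← union_assoc]; exact h.un⟩

theorem T3.swap13 (h : T3 r E f A B C) : T3 r E f C B A := h.swap12.swap23.swap12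

theorem T3.subA (h : T3 r E f A B C) : A ⊆ E := fun x hx => by
  rw [← h.un]; exact mem_union_left _ (mem_union_left _ hx)

theorem T3.subB (h : T3 r E f A B C) : B ⊆ E := h.swap12.subA

theorem T3.subC (h : T3 r E f A B C) : C ⊆ E := h.swap13.subA

theorem T3.compl (h : T3 r E f A B C) : E \ (A ∪ B) = C := by
  rw [← h.un]
  ext x
  have h1 : x ∈ A → x ∉ C := fun hx => disjoint_left.1 h.ac hx
  have h2 : x ∈ B → x ∉ C := fun hx => disjoint_left.1 h.bc hx
  simp only [mem_sdiff, mem_union]
  tauto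

theorem env_of_T3 (hr : RankFn r) (h : T3 r E f A B C) (hf : r E = f) : Env r E f := by
  have hc : E.card = 3 * f := by
    rw [← h.un, card_union_of_disjoint (disjoint_union_left.2 ⟨h.ac, h.bc⟩),
      card_union_of_disjoint h.ab, h.a.1, h.b.1, h.c.1]
    omega
  refine ⟨hr, hc, hf, fun X hX => ?_⟩
  have e : X = (X ∩ A) ∪ (X ∩ B) ∪ (X ∩ C) := by
    rw [← inter_union_distrib_left, ← inter_union_distrib_left, h.un, inter_eq_left.2 hX]
  have h1 : X.card ≤ (X ∩ A).card + (X ∩ B).card + (X ∩ C).card := by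
    conv_lhs => rw [e]
    exact (card_union_le _ _).trans (Nat.add_le_add_right (card_union_le _ _) _)
  have i1 : r (X ∩ A) = (X ∩ A).card := ind_sub hr (h.a.2.trans h.a.1.symm) inter_subset_right
  have i2 : r (X ∩ B) = (X ∩ B).card := ind_sub hr (h.b.2.trans h.b.1.symm) inter_subset_right
  have i3 : r (X ∩ C) = (X ∩ C).card := ind_sub hr (h.c.2.trans h.c.1.symm) inter_subset_right
  have m1 := hr.mono (X ∩ A) X inter_subset_left
  have m2 := hr.mono (X ∩ B) X inter_subset_left
  have m3 := hr.mono (X ∩ C) X inter_subset_left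
  omega

theorem T3.gd (hE : Env r E f) (h : T3 r E f A B C) : Gd r E f A :=
  gd_of_parts hE h.subA h.a h.subB h.ab h.b (by rw [h.compl]; exact h.c)

theorem gd_T3 (hE : Env r E f) (h : Gd r E f A) : ∃ B C, T3 r E f A B C := by
  obtain ⟨B, hB, hd, h1, h2⟩ := gd_parts hE h
  refine ⟨B, E \ (A ∪ B), h.2.1, h1, h2, hd, ?_, ?_, ?_⟩
  · exact disjoint_of_subset_left subset_union_left disjoint_sdiff
  · exact disjoint_of_subset_left subset_union_right disjoint_sdiff
  · exact union_sdiff_of_subset (union_subset h.1 hB)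

theorem T3.stp (h : T3 r E f A B C) (h' : T3 r E f A B' C') : Stp r E f B B' := by
  refine ⟨h.subB, h'.subB, h.b, h'.b, A, h.subA, h.ab.symm, h'.ab.symm, h.a, ?_, ?_⟩
  · rw [h.swap12.compl]; exact h.c
  · rw [h'.swap12.compl]; exact h'.c

theorem stp_T3 (h : Stp r E f A A') : ∃ C D D', T3 r E f C A D ∧ T3 r E f C A' D' := by
  obtain ⟨h1, h2, h3, h4, C, h5, h6, h7, h8, h9, h10⟩ := h
  refine ⟨C, E \ (A ∪ C), E \ (A' ∪ C), ⟨h8, h3, h9, h6.symm, ?_, ?_, ?_⟩,
    ⟨h8, h4, h10, h7.symm, ?_, ?_, ?_⟩⟩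
  · exact disjoint_of_subset_left subset_union_right disjoint_sdiff
  · exact disjoint_of_subset_left subset_union_left disjoint_sdiff
  · rw [union_comm C A]; exact union_sdiff_of_subset (union_subset h1 h5)
  · exact disjoint_of_subset_left subset_union_right disjoint_sdiff
  · exact disjoint_of_subset_left subset_union_left disjoint_sdiff
  · rw [union_comm C A']; exact union_sdiff_of_subset (union_subset h2 h5)

/-- A property of blocks which is constant on the blocks of every partition into three bases. -/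
def Cst (r : Finset α → ℕ) (E : Finset α) (f : ℕ) (Q : Finset α → Prop) : Prop :=
  ∀ A B C, T3 r E f A B C → Q A → Q B

/-- All partitions into three bases have the same colour. -/
def Wh (r : Finset α → ℕ) (E : Finset α) (f : ℕ) : Prop :=
  ∀ Q : Finset α → Prop, Cst r E f Q → ∀ A B C A' B' C', T3 r E f A B C → T3 r E f A' B' C' →
    Q A → Q A'

/-- The form with `Stp`. -/
def WhS (r : Finset α → ℕ) (E : Finset α) (f : ℕ) : Prop :=
  ∀ (Q : Finset α → Prop) (A B : Finset α), (∀ A A', Stp r E f A A' → Q A → Q A') →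
    Gd r E f A → Gd r E f B → Q A → Q B

theorem Cst.iff {Q : Finset α → Prop} (hQ : Cst r E f Q) (h : T3 r E f A B C) : Q A ↔ Q B :=
  ⟨hQ A B C h, hQ B A C h.swap12⟩

theorem Cst.iff13 {Q : Finset α → Prop} (hQ : Cst r E f Q) (h : T3 r E f A B C) : Q A ↔ Q C :=
  hQ.iff h.swap23

theorem cst_of {Q : Finset α → Prop} (hQ : ∀ A A', Stp r E f A A' → Q A → Q A') : Cst r E f Q := by
  intro A B C h hA
  have h1 : T3 r E f C A B := h.swap13.swap23
  have h2 : T3 r E f C B A := h1.swap23
  exact hQ A B (h1.stp h2) hA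

theorem wh_of (hE : Env r E f) (h : WhS r E f) : Wh r E f := by
  intro Q hQ A B C A' B' C' h1 h2 hA
  refine h Q A A' ?_ (h1.gd hE) (h2.gd hE) hA
  intro S S' hS hQS
  obtain ⟨X, D, D', h3, h4⟩ := stp_T3 hS
  exact (hQ.iff h4).1 ((hQ.iff h3).2 hQS)

theorem whS_of (hE : Env r E f) (h : Wh r E f) : WhS r E f := by
  intro Q A B hQ hA hB hQA
  obtain ⟨A2, A3, h1⟩ := gd_T3 hE hA
  obtain ⟨B2, B3, h2⟩ := gd_T3 hE hB
  exact h Q (cst_of hQ) _ _ _ _ _ _ h1 h2 hQA

/-- A property of partitions, invariant under permutations. -/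
def Perm3 (r : Finset α → ℕ) (E : Finset α) (f : ℕ) (c : Finset α → Finset α → Finset α → Prop) :
    Prop :=
  ∀ A B C, T3 r E f A B C → c A B C → c B A C ∧ c A C B

theorem wh_step (h : Wh r E f) {c : Finset α → Finset α → Finset α → Prop} (hc : Perm3 r E f c)
    (h1 : T3 r E f A B C) (h1' : c A B C) (h2 : T3 r E f A' B' C') (h2' : ¬ c A' B' C') :
    ∃ X Y Z Y' Z', T3 r E f X Y Z ∧ T3 r E f X Y' Z' ∧ c X Y Z ∧ ¬ c X Y' Z' := by
  by_contra hno
  push Not at hno
  have key := h (fun S => ∃ Y Z, T3 r E f S Y Z ∧ c S Y Z) (by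
    rintro S S' S'' hT ⟨Y, Z, hYZ, hcc⟩
    have h3 : c S S' S'' := hno S Y Z S' S'' hYZ hT hcc
    exact ⟨S, S'', hT.swap12, (hc _ _ _ hT h3).1⟩) A B C A' B' C' h1 h2 ⟨B, C, h1, h1'⟩
  obtain ⟨Y, Z, hYZ, hcc⟩ := key
  exact h2' (hno A' Y Z B' C' hYZ h2 hcc)

end Pool.Agent.SL65
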