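import Pool.Agent.SL65.T3
import Pool.Agent.CF98.Circ

/-!
A subset `P` of `E` with `|P| = 3 r P - 1` (note 2805 of MP_e6151a_ag).  Every partition of `E` into three bases is a compatible pair of
an inner state `(U; J, L)` (`PS`) and an outer state `(T; A, B)` (`OS`): `{U ∪ T, J ∪ A, L ∪ B}`, `r (U ∪ T) = f`.

* `T3_of`: compatible pairs give partitions; `split3`: all partitions are of this form, up to the order of the blocks.
* `fix_p`: White's theorem for `(N / U) | (E \ P) ∪ {x, x'}` implies that all outer states compatible with one inner state give one colour.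
* `fix_o`: White's theorem for `(N / (T - z)) | P ∪ {z}` implies that all inner states compatible with one outer state give one colour.
-/

set_option autoImplicit false

namespace Pool.Agent.SL65

open Finset Pool.Agent.DT3 Pool.Agent.CF98

variable {α : Type*} [DecidableEq α] {r : Finset α → ℕ} {E P U J L T A B U' J' L' T' A' B' X Y Z : Finset α}
  {f : ℕ} {x x' z : α} {Q : Finset α → Prop}

/-- An inner state. -/
structure PS (r : Finset α → ℕ) (P U J L : Finset α) : Prop where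
  cU : U.card + 1 = r P
  rU : r U = U.card
  bJ : Bs r (r P) J
  bL : Bs r (r P) L
  dUJ : Disjoint U J
  dUL : Disjoint U L
  dJL : Disjoint J L
  un : U ∪ J ∪ L = P

/-- An outer state. -/
structure OS (r : Finset α → ℕ) (P E : Finset α) (f : ℕ) (T A B : Finset α) : Prop where
  cT : T.card + r P = f + 1
  cA : A.card + r P = f
  rA : r (P ∪ A) = f
  cB : B.card + r P = f
  rB : r (P ∪ B) = f
  TA : Disjoint T A
  TB : Disjoint T B
  AB : Disjoint A B
  un : T ∪ A ∪ B = E \ P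

theorem PS.swap (h : PS r P U J L) : PS r P U L J :=
  ⟨h.cU, h.rU, h.bL, h.bJ, h.dUL, h.dUJ, h.dJL.symm, by rw [union_assoc, union_comm L J, ← union_assoc]; exact h.un⟩

theorem OS.swap (h : OS r P E f T A B) : OS r P E f T B A :=
  ⟨h.cT, h.cB, h.rB, h.cA, h.rA, h.TB, h.TA, h.AB.symm, by
    rw [union_assoc, union_comm B A, ← union_assoc]; exact h.un⟩

theorem PS.subU (h : PS r P U J L) : U ⊆ P := fun x hx => by
  rw [← h.un]; exact mem_union_left _ (mem_union_left _ hx)

theorem PS.subJ (h : PS r P U J L) : J ⊆ P := fun x hx => by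
  rw [← h.un]; exact mem_union_left _ (mem_union_right _ hx)

theorem PS.subL (h : PS r P U J L) : L ⊆ P := h.swap.subJ

theorem OS.subT (h : OS r P E f T A B) : T ⊆ E \ P := fun x hx => by
  rw [← h.un]; exact mem_union_left _ (mem_union_left _ hx)

theorem OS.subA (h : OS r P E f T A B) : A ⊆ E \ P := fun x hx => by
  rw [← h.un]; exact mem_union_left _ (mem_union_right _ hx)

theorem OS.subB (h : OS r P E f T A B) : B ⊆ E \ P := h.swap.subA

theorem disj_PE {S S' : Finset α} (h1 : S ⊆ P) (h2 : S' ⊆ E \ P) : Disjoint S S' := by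
  rw [disjoint_left]
  intro a ha ha'
  exact (mem_sdiff.1 (h2 ha')).2 (h1 ha)

theorem disj_un {S1 S2 S3 S4 : Finset α} (h1 : S1 ⊆ P) (h2 : S2 ⊆ E \ P) (h3 : S3 ⊆ P) (h4 : S4 ⊆ E \ P)
    (h13 : Disjoint S1 S3) (h24 : Disjoint S2 S4) : Disjoint (S1 ∪ S2) (S3 ∪ S4) := by
  rw [disjoint_union_left, disjoint_union_right, disjoint_union_right]
  exact ⟨⟨h13, disj_PE h1 h4⟩, ⟨(disj_PE h3 h2).symm, h24⟩⟩

/-- Compatible pairs give partitions. -/
theorem T3_of (hr : RankFn r) (hPE : P ⊆ E) (hp : PS r P U J L) (ho : OS r P E f T A B)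
    (hc : r (U ∪ T) = f) : T3 r E f (U ∪ T) (J ∪ A) (L ∪ B) := by
  have hk : ∀ {K C : Finset α}, K ⊆ P → Bs r (r P) K → C ⊆ E \ P → C.card + r P = f → r (P ∪ C) = f →
      Bs r f (K ∪ C) := by
    intro K C h1 h2 h3 h4 h5
    refine ⟨?_, ?_⟩
    · rw [card_union_of_disjoint (disj_PE h1 h3), h2.1]
      omega
    · rw [rk_cup_congr hr h1 h2.2 C]
      exact h5
  refine ⟨⟨?_, hc⟩, hk hp.subJ hp.bJ ho.subA ho.cA ho.rA, hk hp.subL hp.bL ho.subB ho.cB ho.rB,
    disj_un hp.subU ho.subT hp.subJ ho.subA hp.dUJ ho.TA, disj_un hp.subU ho.subT hp.subL ho.subB hp.dUL ho.TB,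
    disj_un hp.subJ ho.subA hp.subL ho.subB hp.dJL ho.AB, ?_⟩
  · rw [card_union_of_disjoint (disj_PE hp.subU ho.subT)]
    have := hp.cU
    have := ho.cT
    omega
  · have h1 := hp.un
    have h2 := ho.un
    have e : U ∪ T ∪ (J ∪ A) ∪ (L ∪ B) = (U ∪ J ∪ L) ∪ (T ∪ A ∪ B) := by
      ext a
      simp only [mem_union]
      tauto
    rw [e, h1, h2, union_sdiff_of_subset hPE]

/-- Partitions give compatible pairs. -/
theorem split_X (hr : RankFn r) (hPE : P ⊆ E) (hf : r E = f) (h : T3 r E f X Y Z)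
    (h1 : (X ∩ P).card + 1 = r P) (h2 : (Y ∩ P).card = r P) (h3 : (Z ∩ P).card = r P) :
    PS r P (X ∩ P) (Y ∩ P) (Z ∩ P) ∧ OS r P E f (X \ P) (Y \ P) (Z \ P) ∧
      r ((X ∩ P) ∪ (X \ P)) = f := by
  have iX : r (X ∩ P) = (X ∩ P).card := ind_sub hr (h.a.2.trans h.a.1.symm) inter_subset_left
  have iY : r (Y ∩ P) = (Y ∩ P).card := ind_sub hr (h.b.2.trans h.b.1.symm) inter_subset_left
  have iZ : r (Z ∩ P) = (Z ∩ P).card := ind_sub hr (h.c.2.trans h.c.1.symm) inter_subset_left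
  have hi : ∀ {S S' : Finset α}, Disjoint S S' → Disjoint (S ∩ P) (S' ∩ P) := fun hd =>
    disjoint_of_subset_left inter_subset_left (disjoint_of_subset_right inter_subset_left hd)
  have hs : ∀ {S S' : Finset α}, Disjoint S S' → Disjoint (S \ P) (S' \ P) := fun hd =>
    disjoint_of_subset_left sdiff_subset (disjoint_of_subset_right sdiff_subset hd)
  have hrk : ∀ {S : Finset α}, S ⊆ E → r S = f → r (P ∪ (S \ P)) = f := by
    intro S hS hS'
    rw [union_sdiff_self_eq_union]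
    have m1 := hr.mono S (P ∪ S) subset_union_right
    have m2 := hr.mono (P ∪ S) E (union_subset hPE hS)
    omega
  have cX := card_sdiff_add_card_inter X P
  have cY := card_sdiff_add_card_inter Y P
  have cZ := card_sdiff_add_card_inter Z P
  have hX1 := h.a.1
  have hY1 := h.b.1
  have hZ1 := h.c.1
  refine ⟨⟨h1, iX, ⟨h2, iY.trans h2⟩, ⟨h3, iZ.trans h3⟩, hi h.ab, hi h.ac, hi h.bc, ?_⟩,
    ⟨by omega, by omega, hrk h.subB h.b.2, by omega, hrk h.subC h.c.2, hs h.ab, hs h.ac, hs h.bc, ?_⟩, ?_⟩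
  · rw [← union_inter_distrib_right, ← union_inter_distrib_right, h.un, inter_eq_right.2 hPE]
  · rw [← union_sdiff_distrib, ← union_sdiff_distrib, h.un]
  · rw [union_comm, sdiff_union_inter]
    exact h.a.2

theorem T3.cards (hr : RankFn r) (hPE : P ⊆ E) (h : T3 r E f X Y Z) :
    (X ∩ P).card ≤ r P ∧ (Y ∩ P).card ≤ r P ∧ (Z ∩ P).card ≤ r P ∧
      (X ∩ P).card + (Y ∩ P).card + (Z ∩ P).card = P.card := by
  have iX : r (X ∩ P) = (X ∩ P).card := ind_sub hr (h.a.2.trans h.a.1.symm) inter_subset_left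
  have iY : r (Y ∩ P) = (Y ∩ P).card := ind_sub hr (h.b.2.trans h.b.1.symm) inter_subset_left
  have iZ : r (Z ∩ P) = (Z ∩ P).card := ind_sub hr (h.c.2.trans h.c.1.symm) inter_subset_left
  have m1 := hr.mono (X ∩ P) P inter_subset_right
  have m2 := hr.mono (Y ∩ P) P inter_subset_right
  have m3 := hr.mono (Z ∩ P) P inter_subset_right
  refine ⟨by omega, by omega, by omega, ?_⟩
  have hi : ∀ {S S' : Finset α}, Disjoint S S' → Disjoint (S ∩ P) (S' ∩ P) := fun hd =>
    disjoint_of_subset_left inter_subset_left (disjoint_of_subset_right inter_subset_left hd)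
  have e : P = (X ∩ P) ∪ (Y ∩ P) ∪ (Z ∩ P) := by
    rw [← union_inter_distrib_right, ← union_inter_distrib_right, h.un, inter_eq_right.2 hPE]
  conv_rhs => rw [e]
  rw [card_union_of_disjoint (disjoint_union_left.2 ⟨hi h.ac, hi h.bc⟩), card_union_of_disjoint (hi h.ab)]

/-- Up to the order of the blocks every partition comes from a compatible pair. -/
theorem split3 (hr : RankFn r) (hPE : P ⊆ E) (hf : r E = f) (hP : P.card + 1 = 3 * r P)
    (hQ : Cst r E f Q) (h : T3 r E f X Y Z) :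
    ∃ U J L T A B, PS r P U J L ∧ OS r P E f T A B ∧ r (U ∪ T) = f ∧ (Q X ↔ Q (U ∪ T)) := by
  obtain ⟨h1, h2, h3, h4⟩ := h.cards hr hPE
  have hc : (X ∩ P).card + 1 = r P ∧ (Y ∩ P).card = r P ∧ (Z ∩ P).card = r P ∨
      (Y ∩ P).card + 1 = r P ∧ (X ∩ P).card = r P ∧ (Z ∩ P).card = r P ∨
      (Z ∩ P).card + 1 = r P ∧ (Y ∩ P).card = r P ∧ (X ∩ P).card = r P := by omega
  have e : ∀ S : Finset α, S ∩ P ∪ S \ P = S := fun S => by rw [union_comm, sdiff_union_inter]
  rcases hc with ⟨a1, a2, a3⟩ | ⟨a1, a2, a3⟩ | ⟨a1, a2, a3⟩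
  · obtain ⟨b1, b2, b3⟩ := split_X hr hPE hf h a1 a2 a3
    exact ⟨_, _, _, _, _, _, b1, b2, b3, by rw [e]⟩
  · obtain ⟨b1, b2, b3⟩ := split_X hr hPE hf h.swap12 a1 a2 a3
    exact ⟨_, _, _, _, _, _, b1, b2, b3, by rw [e]; exact hQ.iff h⟩
  · obtain ⟨b1, b2, b3⟩ := split_X hr hPE hf h.swap13 a1 a2 a3
    exact ⟨_, _, _, _, _, _, b1, b2, b3, by rw [e]; exact hQ.iff13 h⟩

theorem ex_x (hr : RankFn r) (hp : PS r P U J L) : ∃ x ∈ J, r (insert x U) = r P := by
  by_contra hno
  push Not at hno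
  have h1 : ∀ x ∈ J, r (insert x U) = r U := by
    intro x hx
    rcases hr.insert_eq x U with h2 | h2
    · exact h2
    · exact absurd (by have := hp.cU; have := hp.rU; omega) (hno x hx)
  have h2 := rk_union_eq hr h1
  have h3 := hr.mono J (U ∪ J) subset_union_right
  have h4 := hp.bJ.2
  have := hp.cU
  have := hp.rU
  omega

theorem ex_z (hr : RankFn r) (ho : OS r P E f T A B) (hT : r (P ∪ T) = f) :
    ∃ z ∈ T, r (P ∪ T.erase z) = f := by
  by_contra hno
  push Not at hno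
  have h1 := coloop_add hr (K := T) (G := P ∪ T) subset_union_right (by
    intro k hk h2
    apply hno k hk
    have h3 : (P ∪ T).erase k = P ∪ T.erase k := by
      rw [erase_union_distrib, erase_eq_of_notMem]
      exact (mem_sdiff.1 (ho.subT hk)).2
    rw [← h3, h2, hT]) (S := P) (by
    intro a ha
    exact mem_sdiff.2 ⟨mem_union_left _ ha, fun h => (mem_sdiff.1 (ho.subT h)).2 ha⟩)
  rw [hT] at h1
  have := ho.cT
  omega

end Pool.Agent.SL65
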