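import Pool.Agent.SL65.Fix
import Pool.Agent.SL82.Rk

/-!
Note 2805, the inner system `mi r P t T₁ T₂ g` on `insert t P`: its partitions into three bases are `{U + t, J, L}` for the inner states
`(U; J, L)` compatible with `T₁` or with `T₂`.

* `in_to`, `in_can`: the shape of the partitions; `in_env`: `Env`.
* `fix_o`: (2), all inner states compatible with one outer state give one colour.
* `in_step`: (4).
-/

set_option autoImplicit false

namespace Pool.Agent.SL65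

open Finset Pool.Agent.DT3 Pool.Agent.CF98 Pool.Agent.SL82

variable {α : Type*} [DecidableEq α] {r : Finset α → ℕ}
  {E P U J L T A B U' J' L' S1 S2 S3 T₁ T₂ : Finset α} {f g : ℕ} {t : α} {Q : Finset α → Prop}

/-- The hypotheses on the inner system. -/
structure IH (r : Finset α → ℕ) (P : Finset α) (f g : ℕ) (t : α) (T₁ T₂ : Finset α) : Prop where
  hr : RankFn r
  ht : t ∉ P
  hg : r P + g = f
  h1 : T₁.card = g + 1
  h1' : r (T₁ ∪ P) = r P + g
  h2 : T₂.card = g + 1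
  h2' : r (T₂ ∪ P) = r P + g

theorem IH.rk (H : IH r P f g t T₁ T₂) : RankFn (mi r P t T₁ T₂ g) :=
  mi_rk H.hr H.ht H.h1 H.h1' H.h2 H.h2'

theorem IH.le (H : IH r P f g t T₁ T₂) {S : Finset α} (hS : S ⊆ P) : r (T₁ ∪ S) ≤ f ∧ r (T₂ ∪ S) ≤ f := by
  have m1 := H.hr.mono (T₁ ∪ S) (T₁ ∪ P) (union_subset_union (Subset.refl _) hS)
  have m2 := H.hr.mono (T₂ ∪ S) (T₂ ∪ P) (union_subset_union (Subset.refl _) hS)
  have := H.h1'
  have := H.h2'
  have := H.hg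
  omega

theorem ins_inter {S : Finset α} (ht : t ∉ P) (hS : S ⊆ P) : insert t S ∩ P = S := by
  rw [insert_inter_of_notMem ht, inter_eq_left.2 hS]

theorem in_to (H : IH r P f g t T₁ T₂) (hp : PS r P U J L) (hc : r (U ∪ T₁) = f ∨ r (U ∪ T₂) = f) :
    T3 (mi r P t T₁ T₂ g) (insert t P) (r P) (insert t U) J L := by
  have hr := H.hr
  have hn : ∀ {S : Finset α}, S ⊆ P → t ∉ S := fun h1 h2 => H.ht (h1 h2)
  have hk : ∀ {K : Finset α}, K ⊆ P → Bs r (r P) K → Bs (mi r P t T₁ T₂ g) (r P) K := by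
    intro K h3 h4
    refine ⟨h4.1, ?_⟩
    rw [mi_out (hn h3), inter_eq_left.2 h3]
    exact h4.2
  refine ⟨⟨?_, ?_⟩, hk hp.subJ hp.bJ, hk hp.subL hp.bL, ?_, ?_, hp.dJL, ?_⟩
  · rw [card_insert_of_notMem (hn hp.subU)]
    exact hp.cU
  · have k1 := mi_in hr H.h1 H.h1' H.h2 H.h2' (mem_insert_self t U)
    rw [ins_inter H.ht hp.subU] at k1
    have k2 := H.le hp.subU
    rw [union_comm U T₁, union_comm U T₂] at hc
    have := H.hg
    omega
  · rw [disjoint_insert_left]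
    exact ⟨hn hp.subJ, hp.dUJ⟩
  · rw [disjoint_insert_left]
    exact ⟨hn hp.subL, hp.dUL⟩
  · rw [insert_union, insert_union, hp.un]

theorem in_can (H : IH r P f g t T₁ T₂) (h : T3 (mi r P t T₁ T₂ g) (insert t P) (r P) S1 S2 S3)
    (h1 : t ∈ S1) : PS r P (S1.erase t) S2 S3 ∧ (r (S1.erase t ∪ T₁) = f ∨ r (S1.erase t ∪ T₂) = f) := by
  have hr := H.hr
  have n2 : t ∉ S2 := fun h4 => disjoint_left.1 h.ab h1 h4
  have n3 : t ∉ S3 := fun h4 => disjoint_left.1 h.ac h1 h4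
  have s1 : S1.erase t ⊆ P := fun a ha => (mem_insert.1 (h.subA (mem_erase.1 ha).2)).resolve_left (mem_erase.1 ha).1
  have s2 : S2 ⊆ P := fun a ha => (mem_insert.1 (h.subB ha)).resolve_left (fun e => n2 (e ▸ ha))
  have s3 : S3 ⊆ P := fun a ha => (mem_insert.1 (h.subC ha)).resolve_left (fun e => n3 (e ▸ ha))
  have c1 := h.a.1
  have c1' := card_erase_of_mem h1
  have c1'' : 0 < S1.card := card_pos.2 ⟨t, h1⟩
  have e1 : S1 ∩ P = S1.erase t := by
    conv_lhs => rw [← insert_erase h1]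
    exact ins_inter H.ht s1
  have k1 := mi_in hr H.h1 H.h1' H.h2 H.h2' h1
  rw [e1, h.a.2] at k1
  have k2 := H.le s1
  have hg := H.hg
  have hU : r (T₁ ∪ S1.erase t) = f ∨ r (T₂ ∪ S1.erase t) = f := by omega
  have hb : ∀ {K : Finset α}, K ⊆ P → t ∉ K → Bs (mi r P t T₁ T₂ g) (r P) K → Bs r (r P) K := by
    intro K h3 h3' h4
    refine ⟨h4.1, ?_⟩
    have h5 := h4.2
    rw [mi_out h3', inter_eq_left.2 h3] at h5
    exact h5
  refine ⟨⟨by omega, ?_, hb s2 n2 h.b, hb s3 n3 h.c, ?_, ?_, h.bc, ?_⟩, ?_⟩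
  · have m1 := rk_le_union_card hr (S1.erase t) T₁
    have m1' := rk_le_union_card hr (S1.erase t) T₂
    rw [union_comm] at m1 m1'
    have m2 := hr.le_card (S1.erase t)
    have m3 := H.h1
    have m4 := H.h2
    omega
  · exact disjoint_of_subset_left (erase_subset _ _) h.ab
  · exact disjoint_of_subset_left (erase_subset _ _) h.ac
  · have e : (S1 ∪ S2 ∪ S3).erase t = S1.erase t ∪ S2 ∪ S3 := by
      rw [erase_union_distrib, erase_union_distrib, erase_eq_of_notMem n2, erase_eq_of_notMem n3]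
    rw [← e, h.un, erase_insert H.ht]
  · rw [union_comm _ T₁, union_comm _ T₂]
    exact hU

theorem in_env0 (H : IH r P f g t T₁ T₂) : mi r P t T₁ T₂ g (insert t P) = r P := by
  have k1 := mi_in H.hr H.h1 H.h1' H.h2 H.h2' (mem_insert_self t P)
  rw [ins_inter H.ht (Subset.refl P), H.h1', H.h2'] at k1
  omega

theorem in_env (H : IH r P f g t T₁ T₂) (hp : PS r P U J L) (hc : r (U ∪ T₁) = f ∨ r (U ∪ T₂) = f) :
    Env (mi r P t T₁ T₂ g) (insert t P) (r P) :=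
  env_of_T3 H.rk (in_to H hp hc) (in_env0 H)

theorem cases_t (h : T3 (mi r P t T₁ T₂ g) (insert t P) (r P) S1 S2 S3) : t ∈ S1 ∨ t ∈ S2 ∨ t ∈ S3 := by
  have m1 : t ∈ S1 ∪ S2 ∪ S3 := by rw [h.un]; exact mem_insert_self _ _
  rw [mem_union, mem_union] at m1
  tauto

/-- (2): all inner states compatible with one outer state have one colour. -/
theorem fix_o (H : IH r P f g t T T) (hPE : P ⊆ E) (ho : OS r P E f T A B)
    (hW : Wh (mi r P t T T g) (insert t P) (r P)) (hQ : Cst r E f Q)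
    (hp : PS r P U J L) (hp' : PS r P U' J' L') (hc : r (U ∪ T) = f) (hc' : r (U' ∪ T) = f)
    (h : Q (U ∪ T)) : Q (U' ∪ T) := by
  classical
  have hr := H.hr
  have t1 := in_to H hp (Or.inl hc)
  have t2 := in_to H hp' (Or.inl hc')
  have e : ∀ {S : Finset α}, S ⊆ P → (insert t S).erase t = S := fun hS =>
    erase_insert (fun h => H.ht (hS h))
  have main := hW (fun S => if t ∈ S then Q (S.erase t ∪ T) else Q (S ∪ A)) ?_ _ _ _ _ _ _ t1 t2 (by
    rw [if_pos (mem_insert_self _ _), e hp.subU]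
    exact h)
  · rw [if_pos (mem_insert_self _ _), e hp'.subU] at main
    exact main
  · have can : ∀ S1 S2 S3, T3 (mi r P t T T g) (insert t P) (r P) S1 S2 S3 →
        t ∈ S1 → t ∉ S2 ∧ t ∉ S3 ∧ (Q (S1.erase t ∪ T) ↔ Q (S2 ∪ A)) ∧ (Q (S1.erase t ∪ T) ↔ Q (S3 ∪ A)) := by
      intro S1 S2 S3 hT h1
      obtain ⟨o1, o2⟩ := in_can H hT h1
      have k1 := T3_of hr hPE o1 ho (o2.elim id id)
      have k2 := T3_of hr hPE o1.swap ho (o2.elim id id)
      exact ⟨fun h4 => disjoint_left.1 hT.ab h1 h4, fun h4 => disjoint_left.1 hT.ac h1 h4, hQ.iff k1, hQ.iff k2⟩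
    intro S1 S2 S3 hT hq
    rcases cases_t hT with h1 | h1 | h1
    · obtain ⟨c1, c2, c3, c4⟩ := can _ _ _ hT h1
      simp only [if_pos h1] at hq
      simp only [if_neg c1]
      exact c3.1 hq
    · obtain ⟨c1, c2, c3, c4⟩ := can _ _ _ hT.swap12 h1
      simp only [if_neg c1] at hq
      simp only [if_pos h1]
      exact c3.2 hq
    · obtain ⟨c1, c2, c3, c4⟩ := can _ _ _ hT.swap13 h1
      simp only [if_neg c2] at hq
      simp only [if_neg c1]
      exact c3.1 (c4.2 hq)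

/-- The colour of a partition of the inner system. -/
def ic (r : Finset α → ℕ) (f : ℕ) (t : α) (T₁ S1 S2 S3 : Finset α) : Prop :=
  (t ∈ S1 ∧ r (S1.erase t ∪ T₁) = f) ∨ (t ∈ S2 ∧ r (S2.erase t ∪ T₁) = f) ∨
    (t ∈ S3 ∧ r (S3.erase t ∪ T₁) = f)

theorem ic_mem (h1 : t ∈ S1) (h2 : t ∉ S2) (h3 : t ∉ S3) :
    ic r f t T₁ S1 S2 S3 ↔ r (S1.erase t ∪ T₁) = f := by
  unfold ic
  tauto

theorem ic_swap12 : ic r f t T₁ S1 S2 S3 ↔ ic r f t T₁ S2 S1 S3 := by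
  unfold ic
  tauto

theorem ic_swap23 : ic r f t T₁ S1 S2 S3 ↔ ic r f t T₁ S1 S3 S2 := by
  unfold ic
  tauto

theorem in_blk (H : IH r P f g t T₁ T₂) (h : T3 (mi r P t T₁ T₂ g) (insert t P) (r P) S1 S2 S3)
    (h1 : t ∉ S1) :
    ∃ U L, PS r P U S1 L ∧ (ic r f t T₁ S1 S2 S3 ↔ r (U ∪ T₁) = f) ∧ (r (U ∪ T₁) = f ∨ r (U ∪ T₂) = f) := by
  rcases cases_t h with h2 | h2 | h2
  · exact absurd h2 h1
  · obtain ⟨o1, o2⟩ := in_can H h.swap12 h2
    refine ⟨S2.erase t, S3, o1, ?_, o2⟩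
    rw [ic_swap12]
    exact ic_mem h2 h1 (fun h4 => disjoint_left.1 h.bc h2 h4)
  · obtain ⟨o1, o2⟩ := in_can H h.swap13.swap23 h2
    refine ⟨S3.erase t, S2, o1, ?_, o2⟩
    rw [ic_swap23, ic_swap12]
    exact ic_mem h2 h1 (fun h4 => disjoint_left.1 h.bc h4 h2)

/-- (4): the inner step. -/
theorem in_step (H : IH r P f g t T₁ T₂) (hW : Wh (mi r P t T₁ T₂ g) (insert t P) (r P))
    (hp : PS r P U J L) (hp' : PS r P U' J' L') (hc : r (U ∪ T₁) = f) (hc' : r (U' ∪ T₂) = f)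
    (hno : r (U' ∪ T₁) ≠ f) :
    ∃ U₁ U₂ K L₁ L₂, PS r P U₁ K L₁ ∧ PS r P U₂ K L₂ ∧ r (U₁ ∪ T₁) = f ∧ r (U₂ ∪ T₂) = f := by
  have t1 := in_to H hp (Or.inl hc)
  have t2 := in_to H hp' (Or.inr hc')
  have hn : ∀ {S : Finset α}, S ⊆ P → t ∉ S := fun h1 h2 => H.ht (h1 h2)
  have e : ∀ {S : Finset α}, S ⊆ P → (insert t S).erase t = S := fun hS =>
    erase_insert (fun h => H.ht (hS h))
  have hpm : Perm3 (mi r P t T₁ T₂ g) (insert t P) (r P) (ic r f t T₁) :=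
    fun S1 S2 S3 _ h => ⟨ic_swap12.1 h, ic_swap23.1 h⟩
  obtain ⟨X, Y, Z, Y', Z', k1, k2, k3, k4⟩ := wh_step hW hpm t1
    ((ic_mem (mem_insert_self _ _) (hn hp.subJ) (hn hp.subL)).2 (by rw [e hp.subU]; exact hc)) t2 (by
    rw [ic_mem (mem_insert_self _ _) (hn hp'.subJ) (hn hp'.subL), e hp'.subU]
    exact hno)
  by_cases hX : t ∈ X
  · exfalso
    have key : ∀ Y Z, T3 (mi r P t T₁ T₂ g) (insert t P) (r P) X Y Z →
        (ic r f t T₁ X Y Z ↔ r (X.erase t ∪ T₁) = f) := fun Y Z hT =>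
      ic_mem hX (fun h4 => disjoint_left.1 hT.ab hX h4) (fun h4 => disjoint_left.1 hT.ac hX h4)
    exact k4 ((key _ _ k2).2 ((key _ _ k1).1 k3))
  · obtain ⟨U₁, L₁, a1, a2, _⟩ := in_blk H k1 hX
    obtain ⟨U₂, L₂, b1, b2, b3⟩ := in_blk H k2 hX
    exact ⟨U₁, U₂, X, L₁, L₂, a1, b1, a2.1 k3, b3.resolve_left (fun h => k4 (b2.2 h))⟩

end Pool.Agent.SL65
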