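import Pool.Agent.SL65.Outer
import Pool.Agent.SL65.Inner
import Pool.Agent.SL82.Min

/-!
Note 2805 (helper21): a smallest system with two classes has no set `P` with `|P| = 3 r P - 1` and `2 ≤ r P ≤ f - 1`.

* `slack_core`: White's theorem for the outer and inner systems of `P` implies White's theorem for `N`.
* `slack_rank`: induction on the rank.
* `slack_np`: induction on the number of points.
-/

set_option autoImplicit false

namespace Pool.Agent.SL65

open Finset Pool.Agent.DT3 Pool.Agent.CF98 Pool.Agent.SL82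

variable {α : Type*} [DecidableEq α] {r : Finset α → ℕ} {E P : Finset α} {f : ℕ}

theorem slack_core (hr : RankFn r) (hPE : P ⊆ E) (hf : r E = f) (hP : P.card + 1 = 3 * r P)
    (h2 : 2 ≤ r P) (hlt : r P < f)
    (ihO : ∀ (p p' : α) (U₁ U₂ : Finset α), OH r P E f p p' U₁ U₂ →
      Env (mo r P p p' U₁ U₂) ((E \ P) ∪ {p, p'}) (f + 1 - r P) →
      Wh (mo r P p p' U₁ U₂) ((E \ P) ∪ {p, p'}) (f + 1 - r P))
    (ihI : ∀ (g : ℕ) (t : α) (T₁ T₂ : Finset α), IH r P f g t T₁ T₂ → t ∈ E →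
      Env (mi r P t T₁ T₂ g) (insert t P) (r P) → Wh (mi r P t T₁ T₂ g) (insert t P) (r P)) :
    Wh r E f := by
  intro Q hQ X Y Z X' Y' Z' hT hT' hX
  by_contra hX'
  obtain ⟨U, J, L, T, A, B, hp, ho, hc, hq⟩ := split3 hr hPE hf hP hQ hT
  obtain ⟨U', J', L', T', A', B', hp', ho', hc', hq'⟩ := split3 hr hPE hf hP hQ hT'
  have q1 : Q (U ∪ T) := hq.1 hX
  have q2 : ¬ Q (U' ∪ T') := fun h => hX' (hq'.2 h)
  obtain ⟨p, hpP, p', hpP', hne⟩ : ∃ p ∈ P, ∃ p' ∈ P, p ≠ p' := by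
    have h3 : 1 < P.card := by omega
    exact Finset.one_lt_card.1 h3
  obtain ⟨t, ht⟩ : ∃ t, t ∈ T := by
    have h3 : 0 < T.card := by have := ho.cT; omega
    exact card_pos.1 h3
  have htE := mem_sdiff.1 (ho.subT ht)
  have hU : ∀ {U J L : Finset α}, PS r P U J L → r U + 1 = r P := fun h => by
    have := h.cU
    have := h.rU
    omega
  have hOH : ∀ {U J L U' J' L' : Finset α}, PS r P U J L → PS r P U' J' L' → OH r P E f p p' U U' :=
    fun h h' => ⟨hr, hPE, hf, hpP, hpP', hne, h.subU, h'.subU, hU h, hU h'⟩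
  have hIH : ∀ {T A B U J L T' A' B' U' J' L' : Finset α}, OS r P E f T A B → PS r P U J L → r (U ∪ T) = f →
      OS r P E f T' A' B' → PS r P U' J' L' → r (U' ∪ T') = f → IH r P f (f - r P) t T T' := by
    intro T A B U J L T' A' B' U' J' L' o k c o' k' c'
    have key : ∀ {T A B U J L : Finset α}, OS r P E f T A B → PS r P U J L → r (U ∪ T) = f →
        r (T ∪ P) = r P + (f - r P) := by
      intro T A B U J L o k c
      have m1 := hr.mono (U ∪ T) (T ∪ P) (union_subset (k.subU.trans subset_union_right) subset_union_left)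
      have m2 := hr.mono (T ∪ P) E (union_subset (o.subT.trans sdiff_subset) hPE)
      omega
    have c1 := o.cT
    have c2 := o'.cT
    exact ⟨hr, htE.2, by omega, by omega, key o k c, by omega, key o' k' c'⟩
  have fp : ∀ {U J L T A B T' A' B' : Finset α}, PS r P U J L → OS r P E f T A B → OS r P E f T' A' B' →
      r (U ∪ T) = f → r (U ∪ T') = f → Q (U ∪ T) → Q (U ∪ T') := by
    intro U J L T A B T' A' B' k o o' c c' h
    have H := hOH k k
    exact fix_p H k (ihO _ _ _ _ H (out_env H o (Or.inl c))) hQ o o' c c' h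
  have fo : ∀ {U J L T A B U' J' L' : Finset α}, OS r P E f T A B → PS r P U J L → PS r P U' J' L' →
      r (U ∪ T) = f → r (U' ∪ T) = f → Q (U ∪ T) → Q (U' ∪ T) := by
    intro U J L T A B U' J' L' o k k' c c' h
    have H := hIH o k c o k c
    exact fix_o H hPE o (ihI _ _ _ _ H htE.1 (in_env H k (Or.inl c))) hQ k k' c c' h
  have HO := hOH hp hp'
  obtain ⟨T₁, T₂, C, L₁, L₂, o1, o2, c1, c2⟩ := out_step HO (ihO _ _ _ _ HO (out_env HO ho (Or.inl hc)))
    ho ho' hc hc' (fun T₀ A₀ B₀ o a b => q2 (fp hp' o ho' b hc' (fo o hp hp' a b (fp hp ho o hc a q1))))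
  have HI := hIH o1 hp c1 o2 hp' c2
  obtain ⟨U₁, U₂, K, L₃, L₄, k1, k2, d1, d2⟩ := in_step HI
    (ihI _ _ _ _ HI htE.1 (in_env HI hp (Or.inl c1))) hp hp' c1 c2
    (fun a => q2 (fp hp' o1 ho' a hc' (fo o1 hp hp' c1 a (fp hp ho o1 hc c1 q1))))
  have s1 := T3_of hr hPE k1 o1 d1
  have s2 := T3_of hr hPE k2 o2 d2
  have e1 : Q (U₁ ∪ T₁) := fo o1 hp k1 c1 d1 (fp hp ho o1 hc c1 q1)
  have e2 : Q (U₂ ∪ T₂) := (hQ.iff s2).2 ((hQ.iff s1).1 e1)
  exact q2 (fp hp' o2 ho' c2 hc' (fo o2 k2 hp' d2 c2 e2))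

/-- A system with two classes, all systems of smaller rank being white, has no set of slack one and rank between `2` and `f - 1`. -/
theorem slack_rank {Q : Finset α → Prop} {A B : Finset α}
    (ih : ∀ f' < f, ∀ (r' : Finset α → ℕ) (E' : Finset α), Env r' E' f' → Wt r' E' f')
    (hE : Env r E f) (hS : Strict r E) (hQ : ∀ A A', Stp r E f A A' → Q A → Q A')
    (hA : Gd r E f A) (hB : Gd r E f B) (hQA : Q A) (hQB : ¬ Q B) :
    ∀ P ⊆ E, 2 ≤ r P → r P < f → P.card + 2 ≤ 3 * r P := by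
  intro P hPE h2 hlt
  by_contra hno
  have h3 : P.card + 1 ≤ 3 * r P := hS P hPE (by
    rw [nonempty_iff_ne_empty]
    rintro rfl
    rw [hE.rk.empty] at h2
    omega) (by
    rintro rfl
    rw [hE.rank] at hlt
    omega)
  have hP : P.card + 1 = 3 * r P := by omega
  have hW : Wh r E f := slack_core hE.rk hPE hE.rank hP h2 hlt
    (fun p p' U₁ U₂ H hEnv => wh_of hEnv (ih _ (by omega) _ _ hEnv))
    (fun g t T₁ T₂ H htE hEnv => wh_of hEnv (ih _ hlt _ _ hEnv))
  exact hQB (whS_of hE hW Q A B hQ hA hB hQA)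

/-- The same with the number of points in place of the rank. -/
theorem slack_np {Q : Finset α → Prop} {A B : Finset α}
    (ih : ∀ (r₁ : Finset α → ℕ) (E₁ : Finset α) (f₁ : ℕ), Env r₁ E₁ f₁ → np r₁ E₁ < np r E → Wt r₁ E₁ f₁)
    (hE : Env r E f) (hS : Strict r E) (hQ : ∀ A A', Stp r E f A A' → Q A → Q A')
    (hA : Gd r E f A) (hB : Gd r E f B) (hQA : Q A) (hQB : ¬ Q B) :
    ∀ P ⊆ E, 2 ≤ r P → r P < f → P.card + 2 ≤ 3 * r P := by
  intro P hPE h2 hlt
  by_contra hno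
  have h3 : P.card + 1 ≤ 3 * r P := hS P hPE (by
    rw [nonempty_iff_ne_empty]
    rintro rfl
    rw [hE.rk.empty] at h2
    omega) (by
    rintro rfl
    rw [hE.rank] at hlt
    omega)
  have hP : P.card + 1 = 3 * r P := by omega
  have hfl : ∀ x ∈ E, r (insert x P) = r P → x ∈ P := fun x hx h => flat_of hE hS hPE hP hlt hx h
  have hW : Wh r E f := slack_core hE.rk hPE hE.rank hP h2 hlt
    (fun p p' U₁ U₂ H hEnv => wh_of hEnv (ih _ _ _ hEnv
      (np_mo hE hPE hfl h2 H.hp H.hp' H.hU₁ H.hU₂ H.h1 H.h2 (fun e he => loopless hEnv he))))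
    (fun g t T₁ T₂ H htE hEnv => wh_of hEnv (ih _ _ _ hEnv
      (np_mi hE hPE hfl hP hlt H.ht H.h1 H.h1' H.h2 H.h2' (fun e he => loopless hEnv he))))
  exact hQB (whS_of hE hW Q A B hQ hA hB hQA)

end Pool.Agent.SL65
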