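import Pool.Agent.SL65.Fix
import Pool.Agent.SL82.Rk

/-!
Note 2805, the outer system `mo r P p p' U₁ U₂` on `(E \ P) ∪ {p, p'}`: its partitions into three bases are `{T, A + p, B + p'}` for the
outer states `(T; A, B)` compatible with `U₁` or with `U₂`.

* `out_to`, `out_can`, `out_par`: the shape of the partitions; `out_env`: `Env`.
* `fix_p`: (1), all outer states compatible with one inner state give one colour.
* `out_step`: (3).
-/

set_option autoImplicit false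

namespace Pool.Agent.SL65

open Finset Pool.Agent.DT3 Pool.Agent.CF98 Pool.Agent.SL82

variable {α : Type*} [DecidableEq α] {r : Finset α → ℕ}
  {E P U J L T A B U' J' L' T' A' B' S1 S2 S3 U₁ U₂ : Finset α} {f g : ℕ} {p p' : α} {Q : Finset α → Prop}

/-- The hypotheses on the outer system. -/
structure OH (r : Finset α → ℕ) (P E : Finset α) (f : ℕ) (p p' : α) (U₁ U₂ : Finset α) : Prop where
  hr : RankFn r
  hPE : P ⊆ E
  hf : r E = f
  hp : p ∈ P
  hp' : p' ∈ P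
  ne : p ≠ p'
  hU₁ : U₁ ⊆ P
  hU₂ : U₂ ⊆ P
  h1 : r U₁ + 1 = r P
  h2 : r U₂ + 1 = r P

theorem OH.sub (H : OH r P E f p p' U₁ U₂) : (E \ P) ∪ {p, p'} ⊆ E := by
  intro a ha
  simp only [mem_union, mem_sdiff, mem_insert, mem_singleton] at ha
  rcases ha with h | h | h
  · exact h.1
  · exact h ▸ H.hPE H.hp
  · exact h ▸ H.hPE H.hp'

theorem OH.nP (_H : OH r P E f p p' U₁ U₂) {S : Finset α} {y : α} (h1 : S ⊆ E \ P) (h2 : y ∈ P) : y ∉ S :=
  fun h3 => (mem_sdiff.1 (h1 h3)).2 h2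

theorem out_env0 (H : OH r P E f p p' U₁ U₂) :
    mo r P p p' U₁ U₂ ((E \ P) ∪ {p, p'}) = f + 1 - r P := by
  have h1 := mo_in H.hr H.hU₁ H.hU₂ (p := p) (p' := p') (Y := (E \ P) ∪ {p, p'}) (Or.inl (by simp))
  have e : P ∪ ((E \ P) ∪ {p, p'}) = E := by
    ext a
    have h2 : a ∈ P → a ∈ E := fun h => H.hPE h
    have h3 : a = p → a ∈ E := fun h => h ▸ H.hPE H.hp
    have h4 : a = p' → a ∈ E := fun h => h ▸ H.hPE H.hp'
    simp only [mem_union, mem_sdiff, mem_insert, mem_singleton]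
    tauto
  rw [e, H.hf] at h1
  omega

theorem out_to (H : OH r P E f p p' U₁ U₂) (ho : OS r P E f T A B)
    (hc : r (U₁ ∪ T) = f ∨ r (U₂ ∪ T) = f) :
    T3 (mo r P p p' U₁ U₂) ((E \ P) ∪ {p, p'}) (f + 1 - r P) T (insert p A) (insert p' B) := by
  have hr := H.hr
  have c3 := hr.mono P E H.hPE
  have cf := H.hf
  have hn : ∀ {S : Finset α} {y : α}, S ⊆ E \ P → y ∈ P → y ∉ S := fun h1 h2 => H.nP h1 h2
  have hd : Disjoint T P := (disj_PE (Subset.refl P) ho.subT).symm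
  have k1 := mo_out hr H.hp H.hp' H.hU₁ H.hU₂ H.h1 H.h2 hd
  have m1 := hr.mono (U₁ ∪ T) E (union_subset (H.hU₁.trans H.hPE) (ho.subT.trans sdiff_subset))
  have m2 := hr.mono (U₂ ∪ T) E (union_subset (H.hU₂.trans H.hPE) (ho.subT.trans sdiff_subset))
  have hk : ∀ {y : α} {C : Finset α}, y ∈ P → (p ∈ insert y C ∨ p' ∈ insert y C) → C ⊆ E \ P →
      C.card + r P = f → r (P ∪ C) = f → Bs (mo r P p p' U₁ U₂) (f + 1 - r P) (insert y C) := by
    intro y C h1 h2 h3 h4 h5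
    refine ⟨?_, ?_⟩
    · rw [card_insert_of_notMem (hn h3 h1)]
      omega
    · have h6 := mo_in hr H.hU₁ H.hU₂ (p := p) (p' := p') (Y := insert y C) h2
      have e : P ∪ insert y C = P ∪ C := by
        rw [union_insert, insert_eq_self.2]
        exact mem_union_left _ h1
      rw [e, h5] at h6
      omega
  refine ⟨⟨?_, ?_⟩, hk H.hp (Or.inl (mem_insert_self _ _)) ho.subA ho.cA ho.rA,
    hk H.hp' (Or.inr (mem_insert_self _ _)) ho.subB ho.cB ho.rB, ?_, ?_, ?_, ?_⟩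
  · have := ho.cT
    omega
  · omega
  · rw [disjoint_insert_right]
    exact ⟨hn ho.subT H.hp, ho.TA⟩
  · rw [disjoint_insert_right]
    exact ⟨hn ho.subT H.hp', ho.TB⟩
  · rw [disjoint_insert_right, disjoint_insert_left]
    refine ⟨?_, hn ho.subB H.hp, ho.AB⟩
    rw [mem_insert]
    rintro (h | h)
    · exact H.ne h.symm
    · exact hn ho.subA H.hp' h
  · rw [← ho.un]
    ext a
    simp only [mem_union, mem_insert, mem_singleton]
    tauto

theorem out_par (H : OH r P E f p p' U₁ U₂) {S : Finset α} (hS : Bs (mo r P p p' U₁ U₂) g S) (h1 : p ∈ S)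
    (h2 : p' ∈ S) : False := by
  have hr := H.hr
  have hm := mo_rk hr H.hp H.hp' H.hU₁ H.hU₂ H.h1 H.h2
  have k1 := mo_in hr H.hU₁ H.hU₂ (p := p) (p' := p') (Y := S) (Or.inl h1)
  have k2 := mo_in hr H.hU₁ H.hU₂ (p := p) (p' := p') (Y := S.erase p') (Or.inl (mem_erase.2 ⟨H.ne, h1⟩))
  have e : P ∪ S.erase p' = P ∪ S := by
    ext a
    simp only [mem_union, mem_erase]
    constructor
    · rintro (h | h)
      · exact Or.inl h
      · exact Or.inr h.2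
    · rintro (h | h)
      · exact Or.inl h
      · by_cases h3 : a = p'
        · exact Or.inl (h3 ▸ H.hp')
        · exact Or.inr ⟨h3, h⟩
  rw [e] at k2
  have k3 := hm.le_card (S.erase p')
  have k4 := card_erase_of_mem h2
  have k5 : 0 < S.card := card_pos.2 ⟨p, h1⟩
  have k6 := hS.1
  have k7 := hS.2
  omega

theorem out_can (H : OH r P E f p p' U₁ U₂)
    (h : T3 (mo r P p p' U₁ U₂) ((E \ P) ∪ {p, p'}) (f + 1 - r P) S1 S2 S3) (h2 : p ∈ S2) (h3 : p' ∈ S3) :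
    OS r P E f S1 (S2 \ P) (S3 \ P) ∧ (r (U₁ ∪ S1) = f ∨ r (U₂ ∪ S1) = f) := by
  have hr := H.hr
  have hPE := H.hPE
  have cf := H.hf
  have c3 := hr.mono P E hPE
  have n1 : p ∉ S1 := fun h4 => disjoint_left.1 h.ab h4 h2
  have n1' : p' ∉ S1 := fun h4 => disjoint_left.1 h.ac h4 h3
  have n2 : p' ∉ S2 := fun h4 => disjoint_left.1 h.bc h4 h3
  have n3 : p ∉ S3 := fun h4 => disjoint_left.1 h.bc h2 h4
  have hall : ∀ a ∈ (E \ P) ∪ {p, p'}, a ∈ P → a = p ∨ a = p' := by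
    intro a ha haP
    simp only [mem_union, mem_sdiff, mem_insert, mem_singleton] at ha
    rcases ha with h4 | h4
    · exact absurd haP h4.2
    · exact h4
  have e2 : S2 \ P = S2.erase p := by
    ext a
    rw [mem_sdiff, mem_erase]
    constructor
    · rintro ⟨h4, h5⟩
      exact ⟨fun h6 => h5 (h6 ▸ H.hp), h4⟩
    · rintro ⟨h4, h5⟩
      refine ⟨h5, fun h6 => ?_⟩
      rcases hall a (h.subB h5) h6 with h7 | h7
      · exact h4 h7
      · exact n2 (h7 ▸ h5)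
  have e3 : S3 \ P = S3.erase p' := by
    ext a
    rw [mem_sdiff, mem_erase]
    constructor
    · rintro ⟨h4, h5⟩
      exact ⟨fun h6 => h5 (h6 ▸ H.hp'), h4⟩
    · rintro ⟨h4, h5⟩
      refine ⟨h5, fun h6 => ?_⟩
      rcases hall a (h.subC h5) h6 with h7 | h7
      · exact n3 (h7 ▸ h5)
      · exact h4 h7
  have s1 : S1 ⊆ E \ P := by
    intro a ha
    rw [mem_sdiff]
    refine ⟨H.sub (h.subA ha), fun h6 => ?_⟩
    rcases hall a (h.subA ha) h6 with h7 | h7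
    · exact n1 (h7 ▸ ha)
    · exact n1' (h7 ▸ ha)
  have hrk : ∀ {S : Finset α}, S ⊆ (E \ P) ∪ {p, p'} → (p ∈ S ∨ p' ∈ S) →
      mo r P p p' U₁ U₂ S = f + 1 - r P → r (P ∪ S \ P) = f := by
    intro S hS h5 h4
    rw [union_sdiff_self_eq_union]
    have m1 := mo_in hr H.hU₁ H.hU₂ (p := p) (p' := p') (Y := S) h5
    have m2 := hr.mono (P ∪ S) E (union_subset hPE (hS.trans H.sub))
    omega
  have d1 := h.a.1
  have d2 := h.b.1
  have d3 := h.c.1
  have r1 := h.a.2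
  have k1 := mo_out hr H.hp H.hp' H.hU₁ H.hU₂ H.h1 H.h2 (Y := S1) (disj_PE (Subset.refl P) s1).symm
  have m1 := hr.mono (U₁ ∪ S1) E (union_subset (H.hU₁.trans H.hPE) (s1.trans sdiff_subset))
  have m2 := hr.mono (U₂ ∪ S1) E (union_subset (H.hU₂.trans H.hPE) (s1.trans sdiff_subset))
  refine ⟨⟨by omega, ?_, hrk h.subB (Or.inl h2) h.b.2, ?_, hrk h.subC (Or.inr h3) h.c.2, ?_, ?_, ?_, ?_⟩, ?_⟩
  · rw [e2, card_erase_of_mem h2]
    omega
  · rw [e3, card_erase_of_mem h3]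
    omega
  · exact disjoint_of_subset_right sdiff_subset h.ab
  · exact disjoint_of_subset_right sdiff_subset h.ac
  · exact disjoint_of_subset_left sdiff_subset (disjoint_of_subset_right sdiff_subset h.bc)
  · have e1 : S1 \ P = S1 := by
      rw [Finset.sdiff_eq_self_iff_disjoint]
      exact (disj_PE (Subset.refl P) s1).symm
    conv_lhs => rw [← e1]
    rw [← union_sdiff_distrib, ← union_sdiff_distrib, h.un]
    ext a
    simp only [mem_sdiff, mem_union, mem_insert, mem_singleton]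
    constructor
    · rintro ⟨h4 | h4 | h4, h5⟩
      · exact h4
      · exact absurd (h4 ▸ H.hp) h5
      · exact absurd (h4 ▸ H.hp') h5
    · rintro ⟨h4, h5⟩
      exact ⟨Or.inl ⟨h4, h5⟩, h5⟩
  · omega

theorem out_env (H : OH r P E f p p' U₁ U₂) (ho : OS r P E f T A B)
    (hc : r (U₁ ∪ T) = f ∨ r (U₂ ∪ T) = f) :
    Env (mo r P p p' U₁ U₂) ((E \ P) ∪ {p, p'}) (f + 1 - r P) :=
  env_of_T3 (mo_rk H.hr H.hp H.hp' H.hU₁ H.hU₂ H.h1 H.h2) (out_to H ho hc) (out_env0 H)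

/-- The block of `E` of a block of `(E \ P) ∪ {p, p'}`. -/
def lf (P U J L : Finset α) (p p' : α) (S : Finset α) : Finset α :=
  (if p ∈ S then J else if p' ∈ S then L else U) ∪ (S \ P)

/-- (1): all outer states compatible with one inner state have one colour. -/
theorem fix_p (H : OH r P E f p p' U U) (hp : PS r P U J L)
    (hW : Wh (mo r P p p' U U) ((E \ P) ∪ {p, p'}) (f + 1 - r P)) (hQ : Cst r E f Q)
    (ho : OS r P E f T A B) (ho' : OS r P E f T' A' B') (hc : r (U ∪ T) = f) (hc' : r (U ∪ T') = f)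
    (h : Q (U ∪ T)) : Q (U ∪ T') := by
  have hr := H.hr
  have t1 := out_to H ho (Or.inl hc)
  have t2 := out_to H ho' (Or.inl hc')
  have hl : ∀ {S : Finset α}, S ⊆ E \ P → lf P U J L p p' S = U ∪ S := by
    intro S hS
    have e1 : S \ P = S := by
      rw [Finset.sdiff_eq_self_iff_disjoint]
      exact (disj_PE (Subset.refl P) hS).symm
    rw [lf, if_neg (H.nP hS H.hp), if_neg (H.nP hS H.hp'), e1]
  have main := hW (fun S => Q (lf P U J L p p' S)) ?_ _ _ _ _ _ _ t1 t2 (by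
    show Q (lf P U J L p p' T)
    rw [hl ho.subT]
    exact h)
  · have main' : Q (lf P U J L p p' T') := main
    rwa [hl ho'.subT] at main'
  · have can : ∀ S1 S2 S3, T3 (mo r P p p' U U) ((E \ P) ∪ {p, p'}) (f + 1 - r P) S1 S2 S3 →
        p ∈ S2 → p' ∈ S3 → (Q (lf P U J L p p' S1) ↔ Q (lf P U J L p p' S2)) ∧
          (Q (lf P U J L p p' S1) ↔ Q (lf P U J L p p' S3)) := by
      intro S1 S2 S3 hT h2 h3
      obtain ⟨o1, o2⟩ := out_can H hT h2 h3
      have hT3 := T3_of hr H.hPE hp o1 (o2.elim id id)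
      have l1 : lf P U J L p p' S1 = U ∪ S1 := hl o1.subT
      have l2 : lf P U J L p p' S2 = J ∪ S2 \ P := by rw [lf, if_pos h2]
      have l3 : lf P U J L p p' S3 = L ∪ S3 \ P := by
        rw [lf, if_neg (fun h => disjoint_left.1 hT.bc h2 h), if_pos h3]
      rw [l1, l2, l3]
      exact ⟨hQ.iff hT3, hQ.iff13 hT3⟩
    intro S1 S2 S3 hT hq
    have hq' : Q (lf P U J L p p' S1) := hq
    show Q (lf P U J L p p' S2)
    have m1 : p ∈ S1 ∪ S2 ∪ S3 := by rw [hT.un]; simp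
    have m2 : p' ∈ S1 ∪ S2 ∪ S3 := by rw [hT.un]; simp
    rw [mem_union, mem_union] at m1 m2
    rcases m1 with (h1 | h1) | h1 <;> rcases m2 with (h2 | h2) | h2
    · exact (out_par H hT.a h1 h2).elim
    · have c := can _ _ _ hT.swap13.swap23 h1 h2
      exact (c.2).1 ((c.1).2 hq')
    · have c := can _ _ _ hT.swap12 h1 h2
      exact (c.1).2 hq'
    · have c := can _ _ _ hT.swap13 h1 h2
      exact (c.1).1 ((c.2).2 hq')
    · exact (out_par H hT.b h1 h2).elim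
    · have c := can _ _ _ hT h1 h2
      exact (c.1).1 hq'
    · have c := can _ _ _ hT.swap12.swap23 h1 h2
      exact (c.2).2 hq'
    · have c := can _ _ _ hT.swap23 h1 h2
      exact (c.2).1 hq'
    · exact (out_par H hT.c h1 h2).elim

/-- The colour of a partition of the outer system. -/
def oc (r : Finset α → ℕ) (f : ℕ) (p p' : α) (U₁ S1 S2 S3 : Finset α) : Prop :=
  (p ∉ S1 ∧ p' ∉ S1 ∧ r (U₁ ∪ S1) = f) ∨ (p ∉ S2 ∧ p' ∉ S2 ∧ r (U₁ ∪ S2) = f) ∨
    (p ∉ S3 ∧ p' ∉ S3 ∧ r (U₁ ∪ S3) = f)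

theorem oc_mem (h2 : p ∈ S2 ∨ p' ∈ S2) (h3 : p ∈ S3 ∨ p' ∈ S3) (h1 : p ∉ S1) (h1' : p' ∉ S1) :
    oc r f p p' U₁ S1 S2 S3 ↔ r (U₁ ∪ S1) = f := by
  unfold oc
  tauto

theorem oc_swap12 : oc r f p p' U₁ S1 S2 S3 ↔ oc r f p p' U₁ S2 S1 S3 := by
  unfold oc
  tauto

theorem oc_swap23 : oc r f p p' U₁ S1 S2 S3 ↔ oc r f p p' U₁ S1 S3 S2 := by
  unfold oc
  tauto

theorem out_blk (H : OH r P E f p p' U₁ U₂)
    (h : T3 (mo r P p p' U₁ U₂) ((E \ P) ∪ {p, p'}) (f + 1 - r P) S1 S2 S3) (h1 : p ∈ S1 ∨ p' ∈ S1) :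
    ∃ T L, OS r P E f T (S1 \ P) L ∧ (oc r f p p' U₁ S1 S2 S3 ↔ r (U₁ ∪ T) = f) ∧
      (r (U₁ ∪ T) = f ∨ r (U₂ ∪ T) = f) := by
  have m1 : p ∈ S1 ∪ S2 ∪ S3 := by rw [h.un]; simp
  have m2 : p' ∈ S1 ∪ S2 ∪ S3 := by rw [h.un]; simp
  rw [mem_union, mem_union] at m1 m2
  rcases h1 with h1 | h1
  · rcases m2 with (h2 | h2) | h2
    · exact (out_par H h.a h1 h2).elim
    · -- `p ∈ S1`, `p' ∈ S2`, `T = S3`
      obtain ⟨o1, o2⟩ := out_can H h.swap13.swap23 h1 h2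
      refine ⟨S3, S2 \ P, o1, ?_, o2⟩
      rw [oc_swap23, oc_swap12]
      exact oc_mem (Or.inl h1) (Or.inr h2) (fun h4 => disjoint_left.1 h.ac h1 h4)
        (fun h4 => disjoint_left.1 h.bc h2 h4)
    · -- `p ∈ S1`, `p' ∈ S3`, `T = S2`
      obtain ⟨o1, o2⟩ := out_can H h.swap12 h1 h2
      refine ⟨S2, S3 \ P, o1, ?_, o2⟩
      rw [oc_swap12]
      exact oc_mem (Or.inl h1) (Or.inr h2) (fun h4 => disjoint_left.1 h.ab h1 h4)
        (fun h4 => disjoint_left.1 h.bc h4 h2)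
  · rcases m1 with (h2 | h2) | h2
    · exact (out_par H h.a h2 h1).elim
    · obtain ⟨o1, o2⟩ := out_can H h.swap13 h2 h1
      refine ⟨S3, S2 \ P, o1.swap, ?_, o2⟩
      rw [oc_swap23, oc_swap12]
      exact oc_mem (Or.inr h1) (Or.inl h2) (fun h4 => disjoint_left.1 h.bc h2 h4)
        (fun h4 => disjoint_left.1 h.ac h1 h4)
    · obtain ⟨o1, o2⟩ := out_can H h.swap12.swap23 h2 h1
      refine ⟨S2, S3 \ P, o1.swap, ?_, o2⟩
      rw [oc_swap12]
      exact oc_mem (Or.inr h1) (Or.inl h2) (fun h4 => disjoint_left.1 h.bc h4 h2)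
        (fun h4 => disjoint_left.1 h.ab h1 h4)

/-- (3): the outer step. -/
theorem out_step (H : OH r P E f p p' U₁ U₂)
    (hW : Wh (mo r P p p' U₁ U₂) ((E \ P) ∪ {p, p'}) (f + 1 - r P))
    (ho : OS r P E f T A B) (ho' : OS r P E f T' A' B') (hc : r (U₁ ∪ T) = f) (hc' : r (U₂ ∪ T') = f)
    (hno : ∀ T A B, OS r P E f T A B → r (U₁ ∪ T) = f → r (U₂ ∪ T) = f → False) :
    ∃ T₁ T₂ C L₁ L₂, OS r P E f T₁ C L₁ ∧ OS r P E f T₂ C L₂ ∧ r (U₁ ∪ T₁) = f ∧ r (U₂ ∪ T₂) = f := by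
  have t1 := out_to H ho (Or.inl hc)
  have t2 := out_to H ho' (Or.inr hc')
  have hpm : Perm3 (mo r P p p' U₁ U₂) ((E \ P) ∪ {p, p'}) (f + 1 - r P) (oc r f p p' U₁) :=
    fun S1 S2 S3 _ h => ⟨oc_swap12.1 h, oc_swap23.1 h⟩
  obtain ⟨X, Y, Z, Y', Z', k1, k2, k3, k4⟩ := wh_step hW hpm t1
    ((oc_mem (Or.inl (mem_insert_self _ _)) (Or.inr (mem_insert_self _ _)) (H.nP ho.subT H.hp)
      (H.nP ho.subT H.hp')).2 hc) t2 (by
    rw [oc_mem (Or.inl (mem_insert_self _ _)) (Or.inr (mem_insert_self _ _)) (H.nP ho'.subT H.hp)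
      (H.nP ho'.subT H.hp')]
    exact fun h => hno _ _ _ ho' h hc')
  by_cases hX : p ∈ X ∨ p' ∈ X
  · obtain ⟨T₁, L₁, a1, a2, _⟩ := out_blk H k1 hX
    obtain ⟨T₂, L₂, b1, b2, b3⟩ := out_blk H k2 hX
    exact ⟨T₁, T₂, X \ P, L₁, L₂, a1, b1, a2.1 k3, b3.resolve_left (fun h => k4 (b2.2 h))⟩
  · push Not at hX
    exfalso
    have key : ∀ Y Z, T3 (mo r P p p' U₁ U₂) ((E \ P) ∪ {p, p'}) (f + 1 - r P) X Y Z →
        (oc r f p p' U₁ X Y Z ↔ r (U₁ ∪ X) = f) := by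
      intro Y Z hT
      have m1 : p ∈ X ∪ Y ∪ Z := by rw [hT.un]; simp
      have m2 : p' ∈ X ∪ Y ∪ Z := by rw [hT.un]; simp
      rw [mem_union, mem_union] at m1 m2
      rcases m1 with (h1 | h1) | h1
      · exact absurd h1 hX.1
      · rcases m2 with (h2 | h2) | h2
        · exact absurd h2 hX.2
        · exact (out_par H hT.b h1 h2).elim
        · exact oc_mem (Or.inl h1) (Or.inr h2) hX.1 hX.2
      · rcases m2 with (h2 | h2) | h2
        · exact absurd h2 hX.2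
        · exact oc_mem (Or.inr h2) (Or.inl h1) hX.1 hX.2
        · exact (out_par H hT.c h1 h2).elim
    exact k4 ((key _ _ k2).2 ((key _ _ k1).1 k3))

end Pool.Agent.SL65
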